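import Mathlib

set_option autoImplicit false

open MvPolynomial Finset
open scoped NNReal

namespace Pool.Agent.H546R2

variable {n : ℕ}

/-- squarefree monomial of the cells `(i, σ i)`, `i ∈ S` -/
noncomputable def mono (σ : Equiv.Perm (Fin n)) (S : Finset (Fin n)) : (Fin n × Fin n) →₀ ℕ :=
  ∑ i ∈ S, Finsupp.single (i, σ i) 1

lemma mono_apply (σ : Equiv.Perm (Fin n)) (S : Finset (Fin n)) (a b : Fin n) :
    mono σ S (a, b) = if a ∈ S ∧ b = σ a then 1 else 0 := by
  classical
  unfold mono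
  rw [Finsupp.finsetSum_apply]
  by_cases h : a ∈ S ∧ b = σ a
  · rw [if_pos h, Finset.sum_eq_single a]
    · rw [h.2]; simp
    · intro i _ hi
      rw [Finsupp.single_apply, if_neg]
      intro hh
      exact hi (by simpa using congrArg Prod.fst hh)
    · intro ha; exact absurd h.1 ha
  · rw [if_neg h]
    apply Finset.sum_eq_zero
    intro i hi
    rw [Finsupp.single_apply, if_neg]
    intro hh
    have h1 : i = a := congrArg Prod.fst hh
    have h2 : σ i = b := congrArg Prod.snd hh
    exact h ⟨h1 ▸ hi, by rw [← h2, h1]⟩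

/-- rows used by a monomial along `σ` -/
noncomputable def rows (σ : Equiv.Perm (Fin n)) (u : (Fin n × Fin n) →₀ ℕ) : Finset (Fin n) :=
  Finset.univ.filter fun i => u (i, σ i) ≠ 0

lemma rows_mono (σ : Equiv.Perm (Fin n)) (S : Finset (Fin n)) : rows σ (mono σ S) = S := by
  ext i
  simp [rows, mono_apply]

/-- a divisor of a squarefree monomial is the squarefree monomial of its rows -/
lemma mono_of_le (σ : Equiv.Perm (Fin n)) (S : Finset (Fin n)) (u : (Fin n × Fin n) →₀ ℕ)
    (h : u ≤ mono σ S) : u = mono σ (rows σ u) := by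
  ext ⟨a, b⟩
  have hab := h (a, b)
  rw [mono_apply] at hab
  rw [mono_apply]
  by_cases hb : b = σ a
  · subst hb
    by_cases h0 : u (a, σ a) = 0
    · simp [rows, h0]
    · have : u (a, σ a) ≤ 1 := le_trans hab (by split_ifs <;> simp)
      have h1 : u (a, σ a) = 1 := by omega
      simp [rows, h1]
  · have h0 : u (a, b) = 0 := by
      have : u (a, b) ≤ 0 := le_trans hab (by simp [hb])
      omega
    simp [hb, h0]

lemma degree_mono (σ : Equiv.Perm (Fin n)) (S : Finset (Fin n)) : (mono σ S).degree = S.card := by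
  unfold mono
  rw [map_sum]
  simp

/-- sum of the coefficients of all submonomials of the permutation monomial of `σ` -/
noncomputable def N (σ : Equiv.Perm (Fin n)) (p : MvPolynomial (Fin n × Fin n) ℝ≥0) : ℝ≥0 :=
  ∑ S : Finset (Fin n), coeff (mono σ S) p

/-- sum of all coefficients -/
noncomputable def M (p : MvPolynomial (Fin n × Fin n) ℝ≥0) : ℝ≥0 :=
  eval (fun _ => (1 : ℝ≥0)) p

lemma N_zero (σ : Equiv.Perm (Fin n)) : N σ 0 = 0 := by simp [N]

lemma N_add (σ : Equiv.Perm (Fin n)) (p q : MvPolynomial (Fin n × Fin n) ℝ≥0) :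
    N σ (p + q) = N σ p + N σ q := by
  simp [N, Finset.sum_add_distrib]

lemma N_sum {ι : Type*} (σ : Equiv.Perm (Fin n)) (s : Finset ι)
    (f : ι → MvPolynomial (Fin n × Fin n) ℝ≥0) :
    N σ (∑ i ∈ s, f i) = ∑ i ∈ s, N σ (f i) := by
  classical
  induction s using Finset.induction_on with
  | empty => simp [N_zero]
  | insert a s ha ih => rw [Finset.sum_insert ha, Finset.sum_insert ha, N_add, ih]

lemma M_zero : M (0 : MvPolynomial (Fin n × Fin n) ℝ≥0) = 0 := by simp [M]

lemma M_add (p q : MvPolynomial (Fin n × Fin n) ℝ≥0) : M (p + q) = M p + M q := by simp [M]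

lemma M_mul (p q : MvPolynomial (Fin n × Fin n) ℝ≥0) : M (p * q) = M p * M q := by simp [M]

lemma M_sum {ι : Type*} (s : Finset ι) (f : ι → MvPolynomial (Fin n × Fin n) ℝ≥0) :
    M (∑ i ∈ s, f i) = ∑ i ∈ s, M (f i) := by simp [M]

lemma N_mul_le (σ : Equiv.Perm (Fin n)) (p q : MvPolynomial (Fin n × Fin n) ℝ≥0) :
    N σ (p * q) ≤ N σ p * N σ q := by
  classical
  unfold N
  simp_rw [coeff_mul]
  rw [Finset.sum_sigma', Finset.sum_mul_sum, ← Finset.sum_product']
  set F : Finset (Fin n) × Finset (Fin n) → ℝ≥0 := fun x =>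
    coeff (mono σ x.1) p * coeff (mono σ x.2) q with hF
  set G : (Σ _ : Finset (Fin n), ((Fin n × Fin n) →₀ ℕ) × ((Fin n × Fin n) →₀ ℕ)) →
      Finset (Fin n) × Finset (Fin n) := fun x => (rows σ x.2.1, rows σ x.2.2) with hG
  set T := (Finset.univ : Finset (Finset (Fin n))).sigma
    (fun S => Finset.HasAntidiagonal.antidiagonal (mono σ S)) with hT
  have key : ∀ x ∈ T, x.2.1 = mono σ (rows σ x.2.1) ∧ x.2.2 = mono σ (rows σ x.2.2) := by
    intro x hx
    rw [hT, Finset.mem_sigma] at hx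
    have h2 := Finset.HasAntidiagonal.mem_antidiagonal.mp hx.2
    constructor
    · exact mono_of_le σ x.1 x.2.1 (by rw [← h2]; exact le_self_add)
    · exact mono_of_le σ x.1 x.2.2 (by rw [← h2]; exact le_add_self)
  have h1 : ∑ x ∈ T, coeff x.2.1 p * coeff x.2.2 q = ∑ x ∈ T, F (G x) := by
    apply Finset.sum_congr rfl
    intro x hx
    obtain ⟨h1, h2⟩ := key x hx
    simp only [hF, hG]
    rw [← h1, ← h2]
  have hinj : Set.InjOn G (T : Set _) := by
    intro x hx y hy hxy
    have hx' : x ∈ T := hx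
    have hy' : y ∈ T := hy
    obtain ⟨hx1, hx2⟩ := key x hx'
    obtain ⟨hy1, hy2⟩ := key y hy'
    rw [hT, Finset.mem_sigma] at hx' hy'
    have ax := Finset.HasAntidiagonal.mem_antidiagonal.mp hx'.2
    have ay := Finset.HasAntidiagonal.mem_antidiagonal.mp hy'.2
    simp only [hG, Prod.mk.injEq] at hxy
    have e1 : x.2.1 = y.2.1 := by rw [hx1, hy1, hxy.1]
    have e2 : x.2.2 = y.2.2 := by rw [hx2, hy2, hxy.2]
    have e3 : mono σ x.1 = mono σ y.1 := by rw [← ax, ← ay, e1, e2]
    have e4 : x.1 = y.1 := by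
      have := congrArg (rows σ) e3
      rwa [rows_mono, rows_mono] at this
    obtain ⟨x1, x2, x3⟩ := x
    obtain ⟨y1, y2, y3⟩ := y
    simp only at e1 e2 e4
    subst e1 e2 e4
    rfl
  calc ∑ x ∈ T, coeff x.2.1 p * coeff x.2.2 q = ∑ x ∈ T, F (G x) := h1
    _ = ∑ y ∈ T.image G, F y := (Finset.sum_image hinj).symm
    _ ≤ ∑ y ∈ Finset.univ ×ˢ Finset.univ, F y := by
        apply Finset.sum_le_sum_of_subset
        intro y _
        simp

lemma N_le_M (σ : Equiv.Perm (Fin n)) (p : MvPolynomial (Fin n × Fin n) ℝ≥0) :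
    N σ p ≤ M p := by
  classical
  unfold N M
  rw [eval_eq']
  simp only [one_pow, Finset.prod_const_one, mul_one]
  have hinj : Set.InjOn (mono σ) ((Finset.univ : Finset (Finset (Fin n))) : Set _) := by
    intro S _ T _ h
    have := congrArg (rows σ) h
    rwa [rows_mono, rows_mono] at this
  calc ∑ S : Finset (Fin n), coeff (mono σ S) p
      = ∑ u ∈ Finset.univ.image (mono σ), coeff u p := (Finset.sum_image hinj).symm
    _ ≤ ∑ u ∈ p.support, coeff u p := by
        apply Finset.sum_le_sum_of_ne_zero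
        intro u _ hu
        exact mem_support_iff.mpr hu

end Pool.Agent.H546R2
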