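import Pool.Agent.H546R2.Mass1

set_option autoImplicit false

open MvPolynomial Finset
open scoped NNReal

namespace Pool.Agent.H546R2

variable {n : ℕ}

lemma card_agree (σ₀ : Equiv.Perm (Fin n)) (S : Finset (Fin n)) :
    (Finset.univ.filter fun σ : Equiv.Perm (Fin n) => ∀ a ∈ S, σ a = σ₀ a).card
      = (n - S.card).factorial := by
  classical
  have h1 : Fintype.card {π : Equiv.Perm (Fin n) // ∀ a, ¬ (a ∉ S) → π a = a}
      = (n - S.card).factorial := by
    rw [← Fintype.card_congr (Equiv.Perm.subtypeEquivSubtypePerm (fun a : Fin n => a ∉ S)),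
      Fintype.card_perm, Fintype.card_subtype_compl]
    simp
  rw [← h1, Fintype.card_subtype]
  apply Finset.card_bij (fun σ _ => σ₀⁻¹ * σ)
  · intro σ hσ
    simp only [Finset.mem_filter, Finset.mem_univ, true_and, not_not] at hσ ⊢
    intro a ha
    rw [Equiv.Perm.mul_apply, hσ a ha]; simp
  · intro σ _ τ _ h
    exact mul_left_cancel h
  · intro π hπ
    simp only [Finset.mem_filter, Finset.mem_univ, true_and, not_not] at hπ
    refine ⟨σ₀ * π, ?_, by simp⟩
    simp only [Finset.mem_filter, Finset.mem_univ, true_and]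
    intro a ha
    rw [Equiv.Perm.mul_apply, hπ a ha]

lemma mono_eq_iff {σ τ : Equiv.Perm (Fin n)} {S T : Finset (Fin n)} (h : mono σ S = mono τ T) :
    S = T ∧ ∀ a ∈ T, σ a = τ a := by
  have key : ∀ {σ τ : Equiv.Perm (Fin n)} {S T : Finset (Fin n)}, mono σ S = mono τ T →
      ∀ a ∈ S, a ∈ T ∧ σ a = τ a := by
    intro σ τ S T h a ha
    have h1 := DFunLike.congr_fun h (a, σ a)
    rw [mono_apply, mono_apply, if_pos ⟨ha, rfl⟩] at h1
    by_contra hcon
    rw [if_neg hcon] at h1
    exact one_ne_zero h1
  constructor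
  · ext a
    exact ⟨fun ha => (key h a ha).1, fun ha => (key h.symm a ha).1⟩
  · intro a ha
    exact (key h.symm a ha).2.symm

lemma card_fiber (b : (Fin n × Fin n) →₀ ℕ) :
    ((Finset.univ : Finset (Equiv.Perm (Fin n) × Finset (Fin n))).filter
      (fun x => mono x.1 x.2 = b)).card ≤ (n - b.degree).factorial := by
  classical
  rcases Finset.eq_empty_or_nonempty ((Finset.univ : Finset (Equiv.Perm (Fin n) × Finset (Fin n))).filter
      (fun x => mono x.1 x.2 = b)) with h | ⟨⟨σ₀, S₀⟩, h0⟩
  · rw [h]; simp
  · simp only [Finset.mem_filter, Finset.mem_univ, true_and] at h0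
    have hdeg : b.degree = S₀.card := by rw [← h0, degree_mono]
    rw [hdeg, ← card_agree σ₀ S₀]
    apply Finset.card_le_card_of_injOn (fun x => x.1)
    · intro x hx
      simp only [Finset.coe_filter, Finset.mem_univ, true_and, Set.mem_ofPred_eq] at hx ⊢
      exact (mono_eq_iff (hx.trans h0.symm)).2
    · intro x hx y hy hxy
      simp only [Finset.coe_filter, Finset.mem_univ, true_and, Set.mem_ofPred_eq] at hx hy
      have h1 := (mono_eq_iff (hx.trans h0.symm)).1
      have h2 := (mono_eq_iff (hy.trans h0.symm)).1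
      exact Prod.ext hxy (h1.trans h2.symm)

lemma sum_N_le (x : ℕ) (p : MvPolynomial (Fin n × Fin n) ℝ≥0) (hp : p.IsHomogeneous x) :
    ∑ σ : Equiv.Perm (Fin n), N σ p ≤ ((n - x).factorial : ℝ≥0) * M p := by
  classical
  unfold N
  rw [← Finset.sum_product' (s := (Finset.univ : Finset (Equiv.Perm (Fin n))))
    (t := (Finset.univ : Finset (Finset (Fin n)))) (f := fun σ S => coeff (mono σ S) p)]
  rw [Finset.univ_product_univ]
  rw [Finset.sum_comp (fun b => coeff b p)
    (fun y : Equiv.Perm (Fin n) × Finset (Fin n) => mono y.1 y.2)]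
  unfold M
  rw [eval_eq']
  simp only [one_pow, Finset.prod_const_one, mul_one]
  rw [Finset.mul_sum]
  calc ∑ b ∈ Finset.univ.image (fun y : Equiv.Perm (Fin n) × Finset (Fin n) => mono y.1 y.2),
        ((Finset.univ : Finset (Equiv.Perm (Fin n) × Finset (Fin n))).filter
          (fun x => mono x.1 x.2 = b)).card • coeff b p
      ≤ ∑ b ∈ Finset.univ.image (fun y : Equiv.Perm (Fin n) × Finset (Fin n) => mono y.1 y.2),
        ((n - x).factorial : ℝ≥0) * coeff b p := by
        apply Finset.sum_le_sum
        intro b _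
        rw [nsmul_eq_mul]
        by_cases hb : coeff b p = 0
        · rw [hb]; simp
        · have hd : b.degree = x := by
            by_contra hne
            exact hb (hp.coeff_eq_zero hne)
          gcongr
          rw [← hd]
          exact card_fiber b
    _ ≤ ∑ b ∈ p.support, ((n - x).factorial : ℝ≥0) * coeff b p := by
        apply Finset.sum_le_sum_of_ne_zero
        intro b _ hb
        apply mem_support_iff.mpr
        intro h0
        apply hb
        rw [h0, mul_zero]

end Pool.Agent.H546R2
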