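import Pool.Agent.H546R2.Mass2

set_option autoImplicit false

open MvPolynomial Finset
open scoped NNReal

namespace Pool.Agent.H546R2

variable {n : ℕ}

lemma card_bad (x Λ : ℕ) (p : MvPolynomial (Fin n × Fin n) ℝ≥0) (hp : p.IsHomogeneous x) :
    ((Finset.univ.filter fun σ : Equiv.Perm (Fin n) =>
      (Λ : ℝ≥0) * ((n - x).factorial * M p) < N σ p * n.factorial).card) * Λ < n.factorial := by
  classical
  set B := Finset.univ.filter fun σ : Equiv.Perm (Fin n) =>
      (Λ : ℝ≥0) * ((n - x).factorial * M p) < N σ p * n.factorial with hB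
  rcases Finset.eq_empty_or_nonempty B with h | hne
  · rw [h]; simp [Nat.factorial_pos]
  · obtain ⟨σ, hσ⟩ := hne
    have hMpos : 0 < M p := by
      rcases eq_or_ne (M p) 0 with h0 | h0
      · exfalso
        rw [hB, Finset.mem_filter] at hσ
        have h1 : N σ p ≤ 0 := h0 ▸ N_le_M σ p
        have h2 : N σ p = 0 := le_antisymm h1 zero_le
        rw [h0, h2] at hσ
        simp at hσ
      · exact pos_iff_ne_zero.mpr h0
    have hfac : (0 : ℝ≥0) < ((n - x).factorial : ℝ≥0) * M p := by
      apply mul_pos _ hMpos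
      exact_mod_cast Nat.factorial_pos _
    have h1 : (B.card : ℝ≥0) * (Λ * ((n - x).factorial * M p)) < ∑ σ ∈ B, N σ p * n.factorial := by
      rw [← nsmul_eq_mul, ← Finset.sum_const]
      apply Finset.sum_lt_sum
      · intro τ hτ
        exact ((Finset.mem_filter.mp hτ).2).le
      · exact ⟨σ, hσ, (Finset.mem_filter.mp hσ).2⟩
    have h2 : ∑ σ ∈ B, N σ p * n.factorial ≤ (n.factorial : ℝ≥0) * ((n - x).factorial * M p) := by
      calc ∑ σ ∈ B, N σ p * n.factorial ≤ ∑ σ : Equiv.Perm (Fin n), N σ p * n.factorial :=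
            Finset.sum_le_sum_of_subset (Finset.filter_subset _ _)
        _ = (∑ σ : Equiv.Perm (Fin n), N σ p) * n.factorial := by rw [Finset.sum_mul]
        _ ≤ (((n - x).factorial : ℝ≥0) * M p) * n.factorial := by
            gcongr
            exact sum_N_le x p hp
        _ = _ := by ring
    have h3 := lt_of_lt_of_le h1 h2
    have h4 : ((B.card * Λ : ℕ) : ℝ≥0) * (((n - x).factorial : ℝ≥0) * M p)
        < (n.factorial : ℝ≥0) * ((n - x).factorial * M p) := by
      push_cast
      calc _ = (B.card : ℝ≥0) * (Λ * ((n - x).factorial * M p)) := by ring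
        _ < _ := h3
    have h5 := lt_of_mul_lt_mul_right h4 hfac.le
    exact_mod_cast h5

lemma exists_good {ι : Type*} [Fintype ι] (p : ι → MvPolynomial (Fin n × Fin n) ℝ≥0) (x : ι → ℕ)
    (hp : ∀ j, (p j).IsHomogeneous (x j)) (Λ : ℕ) (hΛ : Fintype.card ι ≤ Λ) :
    ∃ σ : Equiv.Perm (Fin n), ∀ j,
      N σ (p j) * n.factorial ≤ (Λ : ℝ≥0) * ((n - x j).factorial * M (p j)) := by
  classical
  rcases isEmpty_or_nonempty ι with hι | hι
  · exact ⟨1, fun j => (hι.false j).elim⟩
  by_contra hcon
  push Not at hcon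
  set B : ι → Finset (Equiv.Perm (Fin n)) := fun j => Finset.univ.filter fun σ =>
      (Λ : ℝ≥0) * ((n - x j).factorial * M (p j)) < N σ (p j) * n.factorial with hB
  have hcover : (Finset.univ : Finset (Equiv.Perm (Fin n))) ⊆ Finset.univ.biUnion B := by
    intro σ _
    obtain ⟨j, hj⟩ := hcon σ
    rw [Finset.mem_biUnion]
    exact ⟨j, Finset.mem_univ _, by rw [hB]; simp [hj]⟩
  have h1 : n.factorial ≤ ∑ j, (B j).card := by
    calc n.factorial = (Finset.univ : Finset (Equiv.Perm (Fin n))).card := by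
          rw [Finset.card_univ, Fintype.card_perm, Fintype.card_fin]
      _ ≤ (Finset.univ.biUnion B).card := Finset.card_le_card hcover
      _ ≤ ∑ j, (B j).card := Finset.card_biUnion_le
  have h2 : (∑ j, (B j).card) * Λ < Fintype.card ι * n.factorial := by
    rw [Finset.sum_mul, ← smul_eq_mul (a := Fintype.card ι), ← Finset.card_univ,
      ← Finset.sum_const]
    apply Finset.sum_lt_sum_of_nonempty Finset.univ_nonempty
    intro j _
    exact card_bad (x j) Λ (p j) (hp j)
  have h3 : n.factorial * Λ ≤ (∑ j, (B j).card) * Λ := Nat.mul_le_mul_right _ h1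
  have h4 : Fintype.card ι * n.factorial ≤ Λ * n.factorial := Nat.mul_le_mul_right _ hΛ
  have h5 : n.factorial * Λ = Λ * n.factorial := mul_comm _ _
  omega

end Pool.Agent.H546R2
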