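import Pool.Agent.H546R2.Mass3

set_option autoImplicit false

open MvPolynomial Finset
open scoped NNReal

namespace Pool.Agent.H546R2

/-- an instruction of a straight-line program; a constant is recorded by its absolute value -/
inductive Instr (n : ℕ) : Type
  | var (v : Fin n × Fin n) : Instr n
  | const (c : ℝ≥0) : Instr n
  | add (a b : ℕ) : Instr n
  | mul (a b : ℕ) : Instr n

variable {n : ℕ}

/-- degree `d` part of the shadow polynomial of line `i` -/
noncomputable def G (P : ℕ → Instr n) (i : ℕ) (d : ℕ) : MvPolynomial (Fin n × Fin n) ℝ≥0 :=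
  match P i with
  | .var v => if d = 1 then X v else 0
  | .const c => if d = 0 then C c else 0
  | .add a b => if _h : a < i ∧ b < i then G P a d + G P b d else 0
  | .mul a b => if _h : a < i ∧ b < i then
      ∑ p ∈ antidiagonal d, G P a p.1 * G P b p.2 else 0
termination_by i
decreasing_by all_goals first | exact _h.1 | exact _h.2

/-- polynomial of the contexts leading from line `i` (degree `d`, budget `r`) to line `k`
(degree `e`, budget `ρ`) -/
noncomputable def ctx (P : ℕ → Instr n) (D k e ρ : ℕ) (i d r : ℕ) :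
    MvPolynomial (Fin n × Fin n) ℝ≥0 :=
  (if i = k ∧ d = e ∧ r = ρ then 1 else 0) +
  match P i with
  | .var _ => 0
  | .const _ => 0
  | .add a b => if _h : a < i ∧ b < i then ctx P D k e ρ a d r + ctx P D k e ρ b d r else 0
  | .mul a b => if _h : a < i ∧ b < i then
      ∑ p ∈ antidiagonal d,
        ((if p.2 ≤ r ∧ D < p.1 then G P b p.2 * ctx P D k e ρ a p.1 (r - p.2) else 0)
        + (if p.1 ≤ r ∧ D < p.2 then G P a p.1 * ctx P D k e ρ b p.2 (r - p.1) else 0)) else 0
termination_by i
decreasing_by all_goals first | exact _h.1 | exact _h.2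

/-- the part of line `k` in degree `e` at which the descent stops with budget `ρ` -/
noncomputable def stopSum (P : ℕ → Instr n) (D k e ρ : ℕ) : MvPolynomial (Fin n × Fin n) ℝ≥0 :=
  match P k with
  | .mul a b => if a < k ∧ b < k then
      ∑ p ∈ antidiagonal e, (if (ρ < p.2 ∨ p.1 ≤ D) ∧ (ρ < p.1 ∨ p.2 ≤ D) then
        G P a p.1 * G P b p.2 else 0) else 0
  | _ => 0

lemma G_homog (P : ℕ → Instr n) (i : ℕ) : ∀ d, (G P i d).IsHomogeneous d := by
  induction i using Nat.strong_induction_on with
  | _ i ih =>
    intro d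
    rw [G]
    split
    · split_ifs with h
      · subst h; exact isHomogeneous_X _ _
      · exact isHomogeneous_zero _ _ _
    · split_ifs with h
      · subst h; exact isHomogeneous_C _ _
      · exact isHomogeneous_zero _ _ _
    · split_ifs with h
      · exact (ih _ h.1 d).add (ih _ h.2 d)
      · exact isHomogeneous_zero _ _ _
    · split_ifs with h
      · apply IsHomogeneous.sum
        intro p hp
        rw [← mem_antidiagonal.mp hp]
        exact (ih _ h.1 p.1).mul (ih _ h.2 p.2)
      · exact isHomogeneous_zero _ _ _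

lemma ctx_homog (P : ℕ → Instr n) (D k e ρ : ℕ) (i : ℕ) : ∀ d r,
    (ctx P D k e ρ i d r).IsHomogeneous (r - ρ) ∧
      (ctx P D k e ρ i d r ≠ 0 → ρ ≤ r ∧ d + ρ = e + r) := by
  induction i using Nat.strong_induction_on with
  | _ i ih =>
    intro d r
    have base : ((if i = k ∧ d = e ∧ r = ρ then 1 else 0 :
        MvPolynomial (Fin n × Fin n) ℝ≥0)).IsHomogeneous (r - ρ) ∧
        ((if i = k ∧ d = e ∧ r = ρ then 1 else 0 :
        MvPolynomial (Fin n × Fin n) ℝ≥0) ≠ 0 → ρ ≤ r ∧ d + ρ = e + r) := by
      split_ifs with h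
      · obtain ⟨_, h2, h3⟩ := h
        subst h2 h3
        rw [Nat.sub_self]
        exact ⟨isHomogeneous_one _ _, fun _ => ⟨le_rfl, rfl⟩⟩
      · exact ⟨isHomogeneous_zero _ _ _, fun hh => absurd rfl hh⟩
    have comb : ∀ q : MvPolynomial (Fin n × Fin n) ℝ≥0,
        (q.IsHomogeneous (r - ρ) ∧ (q ≠ 0 → ρ ≤ r ∧ d + ρ = e + r)) →
        (((if i = k ∧ d = e ∧ r = ρ then 1 else 0) + q).IsHomogeneous (r - ρ) ∧
        (((if i = k ∧ d = e ∧ r = ρ then 1 else 0) + q) ≠ 0 → ρ ≤ r ∧ d + ρ = e + r)) := by
      intro q hq
      refine ⟨base.1.add hq.1, fun hne => ?_⟩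
      by_cases h0 : q = 0
      · rw [h0, add_zero] at hne
        exact base.2 hne
      · exact hq.2 h0
    rw [ctx]
    apply comb
    split
    · exact ⟨isHomogeneous_zero _ _ _, fun hh => absurd rfl hh⟩
    · exact ⟨isHomogeneous_zero _ _ _, fun hh => absurd rfl hh⟩
    · rename_i a b _
      split_ifs with h
      · have h1 := ih _ h.1 d r
        have h2 := ih _ h.2 d r
        refine ⟨h1.1.add h2.1, fun hne => ?_⟩
        by_cases h0 : ctx P D k e ρ a d r = 0
        · rw [h0, zero_add] at hne
          exact h2.2 hne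
        · exact h1.2 h0
      · exact ⟨isHomogeneous_zero _ _ _, fun hh => absurd rfl hh⟩
    · rename_i a b _
      split_ifs with h
      · have term : ∀ p ∈ antidiagonal d, ∀ (c c' : ℕ), c < i → c' < i → ∀ (u v : ℕ), u + v = d →
            ((if u ≤ r ∧ D < v then G P c u * ctx P D k e ρ c' v (r - u) else 0 :
              MvPolynomial (Fin n × Fin n) ℝ≥0).IsHomogeneous (r - ρ) ∧
            ((if u ≤ r ∧ D < v then G P c u * ctx P D k e ρ c' v (r - u) else 0 :
              MvPolynomial (Fin n × Fin n) ℝ≥0) ≠ 0 → ρ ≤ r ∧ d + ρ = e + r)) := by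
          intro p _ c c' hc hc' u v huv
          split_ifs with hcond
          · have h1 := ih _ hc' v (r - u)
            by_cases h0 : ctx P D k e ρ c' v (r - u) = 0
            · rw [h0, mul_zero]
              exact ⟨isHomogeneous_zero _ _ _, fun hh => absurd rfl hh⟩
            · obtain ⟨h2, h3⟩ := h1.2 h0
              constructor
              · have h4 : r - ρ = u + (r - u - ρ) := by omega
                rw [h4]
                exact (G_homog P c u).mul h1.1
              · intro _
                omega
          · exact ⟨isHomogeneous_zero _ _ _, fun hh => absurd rfl hh⟩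
        constructor
        · apply IsHomogeneous.sum
          intro p hp
          have hpd := mem_antidiagonal.mp hp
          exact (term p hp b a h.2 h.1 p.2 p.1 (by omega)).1.add
            (term p hp a b h.1 h.2 p.1 p.2 (by omega)).1
        · intro hne
          obtain ⟨p, hp, hpne⟩ := Finset.exists_ne_zero_of_sum_ne_zero hne
          have hpd := mem_antidiagonal.mp hp
          have t1 := (term p hp b a h.2 h.1 p.2 p.1 (by omega)).2
          have t2 := (term p hp a b h.1 h.2 p.1 p.2 (by omega)).2
          by_cases h0 : (if p.2 ≤ r ∧ D < p.1 then G P b p.2 * ctx P D k e ρ a p.1 (r - p.2) else 0 :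
              MvPolynomial (Fin n × Fin n) ℝ≥0) = 0
          · rw [h0, zero_add] at hpne
            exact t2 hpne
          · exact t1 h0
      · exact ⟨isHomogeneous_zero _ _ _, fun hh => absurd rfl hh⟩

/-- the chain decomposition -/
lemma decomp (P : ℕ → Instr n) (D : ℕ) (hD : 1 ≤ D) (T : Finset (ℕ × ℕ × ℕ)) (i : ℕ) :
    ∀ d r, D < d → r ≤ D → (∀ k ≤ i, ∀ e ≤ d, ∀ ρ ≤ r, (k, e, ρ) ∈ T) →
    G P i d = ∑ t ∈ T, ctx P D t.1 t.2.1 t.2.2 i d r * stopSum P D t.1 t.2.1 t.2.2 := by
  classical
  induction i using Nat.strong_induction_on with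
  | _ i ih =>
    intro d r hd hr hT
    have hbase : ∑ t ∈ T, (if i = t.1 ∧ d = t.2.1 ∧ r = t.2.2 then 1 else 0) *
        stopSum P D t.1 t.2.1 t.2.2 = stopSum P D i d r := by
      rw [Finset.sum_eq_single (i, d, r)]
      · simp
      · rintro ⟨k, e, ρ⟩ _ hne
        rw [if_neg, zero_mul]
        rintro ⟨h1, h2, h3⟩
        exact hne (by simp only at h1 h2 h3; rw [h1, h2, h3])
      · intro h
        exact absurd (hT i le_rfl d le_rfl r le_rfl) h
    have hunf : ∀ t : ℕ × ℕ × ℕ, ctx P D t.1 t.2.1 t.2.2 i d r =
        (if i = t.1 ∧ d = t.2.1 ∧ r = t.2.2 then 1 else 0) +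
        (match P i with
        | .var _ => 0
        | .const _ => 0
        | .add a b => if _h : a < i ∧ b < i then
            ctx P D t.1 t.2.1 t.2.2 a d r + ctx P D t.1 t.2.1 t.2.2 b d r else 0
        | .mul a b => if _h : a < i ∧ b < i then
            ∑ p ∈ antidiagonal d,
              ((if p.2 ≤ r ∧ D < p.1 then
                  G P b p.2 * ctx P D t.1 t.2.1 t.2.2 a p.1 (r - p.2) else 0)
              + (if p.1 ≤ r ∧ D < p.2 then
                  G P a p.1 * ctx P D t.1 t.2.1 t.2.2 b p.2 (r - p.1) else 0)) else 0) := by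
      intro t
      rw [ctx]
    simp_rw [hunf, add_mul, Finset.sum_add_distrib, hbase]
    rw [G, stopSum]
    cases hPi : P i with
    | var v =>
      simp only
      rw [if_neg (by omega)]
      simp
    | const c =>
      simp only
      rw [if_neg (by omega)]
      simp
    | add a b =>
      simp only
      by_cases h : a < i ∧ b < i
      · simp only [dif_pos h]
        rw [zero_add]
        simp_rw [add_mul, Finset.sum_add_distrib]
        rw [← ih a h.1 d r hd hr (fun k hk e he ρ hρ => hT k (by omega) e he ρ hρ),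
          ← ih b h.2 d r hd hr (fun k hk e he ρ hρ => hT k (by omega) e he ρ hρ)]
      · simp only [dif_neg h]
        simp
    | mul a b =>
      simp only
      by_cases h : a < i ∧ b < i
      · simp only [dif_pos h, if_pos h]
        simp_rw [← Finset.sum_add_distrib, Finset.sum_mul]
        rw [Finset.sum_comm, ← Finset.sum_add_distrib]
        apply Finset.sum_congr rfl
        intro p hp
        have hpd := mem_antidiagonal.mp hp
        simp_rw [add_mul, Finset.sum_add_distrib]
        by_cases h1 : p.2 ≤ r ∧ D < p.1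
        · have h2 : ¬ (p.1 ≤ r ∧ D < p.2) := by omega
          have h3 : ¬ ((r < p.2 ∨ p.1 ≤ D) ∧ (r < p.1 ∨ p.2 ≤ D)) := by omega
          simp only [if_pos h1, if_neg h2, if_neg h3, zero_add, zero_mul, Finset.sum_const_zero,
            add_zero]
          rw [ih a h.1 p.1 (r - p.2) h1.2 (by omega)
            (fun k hk e he ρ hρ => hT k (by omega) e (by omega) ρ (by omega)), Finset.sum_mul]
          apply Finset.sum_congr rfl
          intro t _
          ring
        · by_cases h2 : p.1 ≤ r ∧ D < p.2
          · have h3 : ¬ ((r < p.2 ∨ p.1 ≤ D) ∧ (r < p.1 ∨ p.2 ≤ D)) := by omega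
            simp only [if_neg h1, if_pos h2, if_neg h3, zero_add, zero_mul, Finset.sum_const_zero]
            rw [ih b h.2 p.2 (r - p.1) h2.2 (by omega)
              (fun k hk e he ρ hρ => hT k (by omega) e (by omega) ρ (by omega)), Finset.mul_sum]
            apply Finset.sum_congr rfl
            intro t _
            ring
          · have h3 : ((r < p.2 ∨ p.1 ≤ D) ∧ (r < p.1 ∨ p.2 ≤ D)) := by omega
            simp only [if_neg h1, if_neg h2, if_pos h3, zero_mul, Finset.sum_const_zero,
              add_zero]
      · simp only [dif_neg h, if_neg h]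
        simp

end Pool.Agent.H546R2
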