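import Pool.Agent.H546R2.Mass4

set_option autoImplicit false

open MvPolynomial Finset
open scoped NNReal

namespace Pool.Agent.H546R2

variable {n : ℕ}

/-- exponent function -/
def Kx (D d : ℕ) : ℕ := if d ≤ D then 1 else 4 * (d / D) - 1

lemma Kx_ineq (D d ρ p q : ℕ) (hD : 1 ≤ D) (hd : D < d) (hρ : ρ ≤ D)
    (h : d + ρ = (p + q) + D) (h1 : ρ < q ∨ p ≤ D) (h2 : ρ < p ∨ q ≤ D) :
    1 + Kx D p + Kx D q ≤ Kx D d ∧ p < d ∧ q < d := by
  have hdd : 1 ≤ d / D := (Nat.one_le_div_iff (by omega)).mpr hd.le
  have hKd : Kx D d = 4 * (d / D) - 1 := by unfold Kx; rw [if_neg (by omega)]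
  refine ⟨?_, by omega, by omega⟩
  rw [hKd]
  by_cases hp : p ≤ D
  · by_cases hq : q ≤ D
    · unfold Kx; rw [if_pos hp, if_pos hq]; omega
    · have hqD : q + D ≤ d := by omega
      have h3 : q / D + 1 ≤ d / D := by
        rw [← Nat.add_div_right q (by omega)]
        exact Nat.div_le_div_right hqD
      have h4 : 1 ≤ q / D := (Nat.one_le_div_iff (by omega)).mpr (by omega)
      unfold Kx; rw [if_pos hp, if_neg hq]; omega
  · by_cases hq : q ≤ D
    · have hpD : p + D ≤ d := by omega
      have h3 : p / D + 1 ≤ d / D := by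
        rw [← Nat.add_div_right p (by omega)]
        exact Nat.div_le_div_right hpD
      have h4 : 1 ≤ p / D := (Nat.one_le_div_iff (by omega)).mpr (by omega)
      unfold Kx; rw [if_neg hp, if_pos hq]; omega
    · have h3 : p / D + q / D ≤ d / D :=
        (Nat.div_add_div_le_add_div).trans (Nat.div_le_div_right (by omega))
      have h4 : 1 ≤ p / D := (Nat.one_le_div_iff (by omega)).mpr (by omega)
      have h5 : 1 ≤ q / D := (Nat.one_le_div_iff (by omega)).mpr (by omega)
      unfold Kx; rw [if_neg hp, if_neg hq]; omega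

lemma main_ineq (P : ℕ → Instr n) (D s Λ : ℕ) (hD : 1 ≤ D) (hΛ : 1 ≤ Λ) (B : ℝ≥0)
    (σ : Equiv.Perm (Fin n))
    (hg : ∀ i < s, ∀ d ≤ D, N σ (G P i d) * B ^ d ≤ Λ * M (G P i d))
    (hc : ∀ i < s, ∀ k < s, ∀ d ≤ n, ∀ e ≤ n, ∀ ρ ≤ D, d + ρ = e + D →
      N σ (ctx P D k e ρ i d D) * B ^ (D - ρ) ≤ Λ * M (ctx P D k e ρ i d D)) :
    ∀ d ≤ n, ∀ i < s, N σ (G P i d) * B ^ d ≤ (Λ : ℝ≥0) ^ (Kx D d) * M (G P i d) := by
  classical
  intro d
  induction d using Nat.strong_induction_on with
  | _ d ih =>
    intro hdn i hi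
    by_cases hd : d ≤ D
    · have : Kx D d = 1 := by unfold Kx; rw [if_pos hd]
      rw [this, pow_one]
      exact hg i hi d hd
    · push Not at hd
      set T : Finset (ℕ × ℕ × ℕ) := (range s) ×ˢ (range (d + 1)) ×ˢ (range (D + 1)) with hT
      have hdec := decomp P D hD T i d D hd le_rfl (by
        intro k hk e he ρ hρ
        simp only [hT, Finset.mem_product, Finset.mem_range]
        omega)
      have hΛ' : (1 : ℝ≥0) ≤ (Λ : ℝ≥0) := by exact_mod_cast hΛ
      have hterm : ∀ t ∈ T, N σ (ctx P D t.1 t.2.1 t.2.2 i d D * stopSum P D t.1 t.2.1 t.2.2) * B ^ d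
          ≤ (Λ : ℝ≥0) ^ (Kx D d) *
            M (ctx P D t.1 t.2.1 t.2.2 i d D * stopSum P D t.1 t.2.1 t.2.2) := by
        rintro ⟨k, e, ρ⟩ ht
        simp only [hT, Finset.mem_product, Finset.mem_range] at ht
        obtain ⟨hk, he, hρ⟩ := ht
        simp only
        by_cases h0 : ctx P D k e ρ i d D = 0
        · rw [h0, zero_mul, N_zero, zero_mul]
          exact zero_le
        · obtain ⟨_, hdeg⟩ := (ctx_homog P D k e ρ i d D).2 h0
          have h1 := hc i hi k hk d hdn e (by omega) ρ (by omega) hdeg
          -- the stop part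
          have h2 : N σ (stopSum P D k e ρ) * B ^ e ≤
              (Λ : ℝ≥0) ^ (Kx D d - 1) * M (stopSum P D k e ρ) := by
            unfold stopSum
            cases hPk : P k with
            | var v => simp [N_zero]
            | const c => simp [N_zero]
            | add a b => simp [N_zero]
            | mul a b =>
              simp only
              by_cases hab : a < k ∧ b < k
              · rw [if_pos hab, N_sum, M_sum, Finset.sum_mul, Finset.mul_sum]
                apply Finset.sum_le_sum
                intro p hp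
                have hpe := mem_antidiagonal.mp hp
                by_cases hst : (ρ < p.2 ∨ p.1 ≤ D) ∧ (ρ < p.1 ∨ p.2 ≤ D)
                · rw [if_pos hst, M_mul]
                  obtain ⟨hK, hlt1, hlt2⟩ := Kx_ineq D d ρ p.1 p.2 hD hd (by omega)
                    (by omega) hst.1 hst.2
                  have i1 := ih p.1 hlt1 (by omega) a (by omega)
                  have i2 := ih p.2 hlt2 (by omega) b (by omega)
                  calc N σ (G P a p.1 * G P b p.2) * B ^ e
                      ≤ (N σ (G P a p.1) * N σ (G P b p.2)) * B ^ e := by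
                        gcongr
                        exact N_mul_le σ _ _
                    _ = (N σ (G P a p.1) * B ^ p.1) * (N σ (G P b p.2) * B ^ p.2) := by
                        rw [← hpe, pow_add]; ring
                    _ ≤ ((Λ : ℝ≥0) ^ (Kx D p.1) * M (G P a p.1)) *
                        ((Λ : ℝ≥0) ^ (Kx D p.2) * M (G P b p.2)) := by
                        gcongr
                    _ = (Λ : ℝ≥0) ^ (Kx D p.1 + Kx D p.2) * (M (G P a p.1) * M (G P b p.2)) := by
                        rw [pow_add]; ring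
                    _ ≤ (Λ : ℝ≥0) ^ (Kx D d - 1) * (M (G P a p.1) * M (G P b p.2)) := by
                        exact mul_le_mul_left (pow_le_pow_right₀ hΛ' (by omega)) _
                · rw [if_neg hst, N_zero, M_zero, zero_mul, mul_zero]
              · rw [if_neg hab, N_zero, M_zero, zero_mul, mul_zero]
          have hKpos : 1 ≤ Kx D d := by
            have hdd : 1 ≤ d / D := (Nat.one_le_div_iff (by omega)).mpr hd.le
            unfold Kx; rw [if_neg (by omega)]; omega
          calc N σ (ctx P D k e ρ i d D * stopSum P D k e ρ) * B ^ d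
              ≤ (N σ (ctx P D k e ρ i d D) * N σ (stopSum P D k e ρ)) * B ^ d := by
                gcongr
                exact N_mul_le σ _ _
            _ = (N σ (ctx P D k e ρ i d D) * B ^ (D - ρ)) * (N σ (stopSum P D k e ρ) * B ^ e) := by
                have : d = (D - ρ) + e := by omega
                conv_lhs => rw [this]
                rw [pow_add, ← this]; ring
            _ ≤ (Λ * M (ctx P D k e ρ i d D)) *
                ((Λ : ℝ≥0) ^ (Kx D d - 1) * M (stopSum P D k e ρ)) := by
                gcongr
            _ = (Λ : ℝ≥0) ^ (1 + (Kx D d - 1)) *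
                (M (ctx P D k e ρ i d D) * M (stopSum P D k e ρ)) := by
                rw [pow_add, pow_one]; ring
            _ = (Λ : ℝ≥0) ^ (Kx D d) * M (ctx P D k e ρ i d D * stopSum P D k e ρ) := by
                rw [M_mul]
                congr 2
                omega
      calc N σ (G P i d) * B ^ d
          = ∑ t ∈ T, N σ (ctx P D t.1 t.2.1 t.2.2 i d D * stopSum P D t.1 t.2.1 t.2.2) * B ^ d := by
            rw [hdec, N_sum, Finset.sum_mul]
        _ ≤ ∑ t ∈ T, (Λ : ℝ≥0) ^ (Kx D d) *
            M (ctx P D t.1 t.2.1 t.2.2 i d D * stopSum P D t.1 t.2.1 t.2.2) :=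
            Finset.sum_le_sum hterm
        _ = (Λ : ℝ≥0) ^ (Kx D d) * M (G P i d) := by
            rw [← Finset.mul_sum, ← M_sum, ← hdec]

end Pool.Agent.H546R2
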