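import Pool.Agent.H546R2.Mass5

set_option autoImplicit false

open MvPolynomial Finset
open scoped NNReal

namespace Pool.Agent.H546R2

variable {n : ℕ} {K : Type*} [NormedField K]

/-- line `i` of the program `P` computes `g i` and has mass `w i` -/
def Step (g : ℕ → MvPolynomial (Fin n × Fin n) K) (w : ℕ → ℝ≥0) (i : ℕ) : Instr n → Prop
  | .var v => g i = X v ∧ w i = 1
  | .const r => ∃ c : K, g i = C c ∧ ‖c‖₊ = r ∧ w i = r
  | .add a b => a < i ∧ b < i ∧ g i = g a + g b ∧ w i = w a + w b
  | .mul a b => a < i ∧ b < i ∧ g i = g a * g b ∧ w i = w a * w b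

lemma coeff_le_G (P : ℕ → Instr n) (g : ℕ → MvPolynomial (Fin n × Fin n) K) (w : ℕ → ℝ≥0)
    (s : ℕ) (h : ∀ i < s, Step g w i (P i)) :
    ∀ i < s, ∀ u, ‖coeff u (g i)‖₊ ≤ coeff u (G P i u.degree) := by
  classical
  intro i
  induction i using Nat.strong_induction_on with
  | _ i ih =>
    intro hi u
    have hstep := h i hi
    rw [G]
    cases hP : P i with
    | var v =>
      rw [hP] at hstep
      simp only [Step] at hstep
      rw [hstep.1]
      simp only
      by_cases hu : Finsupp.single v 1 = u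
      · subst hu
        simp
      · rw [coeff_X, if_neg hu]
        simp
    | const r =>
      rw [hP] at hstep
      simp only [Step] at hstep
      obtain ⟨c, hc, hr, _⟩ := hstep
      rw [hc]
      simp only
      by_cases hu : 0 = u
      · subst hu
        simp [hr]
      · rw [coeff_C, if_neg hu]
        simp
    | add a b =>
      rw [hP] at hstep
      simp only [Step] at hstep
      obtain ⟨ha, hb, hg, _⟩ := hstep
      simp only
      rw [dif_pos ⟨ha, hb⟩, hg, coeff_add, coeff_add]
      exact (nnnorm_add_le _ _).trans (add_le_add (ih a ha (by omega) u) (ih b hb (by omega) u))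
    | mul a b =>
      rw [hP] at hstep
      simp only [Step] at hstep
      obtain ⟨ha, hb, hg, _⟩ := hstep
      simp only
      rw [dif_pos ⟨ha, hb⟩, hg, coeff_mul, coeff_sum]
      simp_rw [coeff_mul]
      rw [Finset.sum_comm]
      refine (nnnorm_sum_le _ _).trans (Finset.sum_le_sum fun x hx => ?_)
      rw [nnnorm_mul]
      have hx' := Finset.HasAntidiagonal.mem_antidiagonal.mp hx
      have hmem : (x.1.degree, x.2.degree) ∈ antidiagonal u.degree := by
        rw [Finset.HasAntidiagonal.mem_antidiagonal, ← hx', map_add]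
      refine le_trans ?_ (Finset.single_le_sum
        (f := fun p : ℕ × ℕ => coeff x.1 (G P a p.1) * coeff x.2 (G P b p.2))
        (fun _ _ => zero_le) hmem)
      exact mul_le_mul' (ih a ha (by omega) x.1) (ih b hb (by omega) x.2)

lemma sum_antidiag_le (L : ℕ) (f : ℕ → ℝ≥0) (g : ℕ → ℝ≥0) :
    ∑ d ∈ range L, ∑ p ∈ antidiagonal d, f p.1 * g p.2 ≤
      (∑ d ∈ range L, f d) * (∑ d ∈ range L, g d) := by
  classical
  have h1 : ∀ d ∈ range L, ∑ p ∈ antidiagonal d, f p.1 * g p.2 =
      ∑ p ∈ range L ×ˢ range L, if p.1 + p.2 = d then f p.1 * g p.2 else 0 := by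
    intro d hd
    rw [← Finset.sum_filter]
    apply Finset.sum_congr _ (fun _ _ => rfl)
    ext p
    simp only [Finset.HasAntidiagonal.mem_antidiagonal, Finset.mem_filter, Finset.mem_product,
      Finset.mem_range]
    rw [Finset.mem_range] at hd
    omega
  have h2 : (∑ d ∈ range L, f d) * (∑ d ∈ range L, g d) =
      ∑ p ∈ range L ×ˢ range L, f p.1 * g p.2 := by
    rw [Finset.sum_mul_sum]
    exact (Finset.sum_product' (range L) (range L) (fun a b => f a * g b)).symm
  rw [Finset.sum_congr rfl h1, Finset.sum_comm, h2]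
  apply Finset.sum_le_sum
  intro p _
  rw [Finset.sum_ite_eq]
  split_ifs
  · exact le_rfl
  · exact zero_le

lemma sum_M_le (P : ℕ → Instr n) (g : ℕ → MvPolynomial (Fin n × Fin n) K) (w : ℕ → ℝ≥0)
    (s : ℕ) (h : ∀ i < s, Step g w i (P i)) (L : ℕ) :
    ∀ i < s, ∑ d ∈ range L, M (G P i d) ≤ w i := by
  classical
  intro i
  induction i using Nat.strong_induction_on with
  | _ i ih =>
    intro hi
    have hstep := h i hi
    have hG : ∀ d, G P i d = _ := fun d => G.eq_1 P i d
    simp_rw [hG]
    cases hP : P i with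
    | var v =>
      rw [hP] at hstep
      simp only [Step] at hstep
      simp only
      rw [hstep.2]
      calc ∑ d ∈ range L, M (if d = 1 then X v else 0 : MvPolynomial (Fin n × Fin n) ℝ≥0)
          = ∑ d ∈ range L, if d = 1 then (1 : ℝ≥0) else 0 := by
            apply Finset.sum_congr rfl
            intro d _
            split_ifs
            · simp [M]
            · exact M_zero
        _ ≤ 1 := by
            rw [Finset.sum_ite_eq']
            split_ifs
            · exact le_rfl
            · exact zero_le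
    | const r =>
      rw [hP] at hstep
      simp only [Step] at hstep
      obtain ⟨c, hc, hr, hw⟩ := hstep
      simp only
      rw [hw]
      calc ∑ d ∈ range L, M (if d = 0 then C r else 0 : MvPolynomial (Fin n × Fin n) ℝ≥0)
          = ∑ d ∈ range L, if d = 0 then r else 0 := by
            apply Finset.sum_congr rfl
            intro d _
            split_ifs
            · simp [M]
            · exact M_zero
        _ ≤ r := by
            rw [Finset.sum_ite_eq']
            split_ifs
            · exact le_rfl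
            · exact zero_le
    | add a b =>
      rw [hP] at hstep
      simp only [Step] at hstep
      obtain ⟨ha, hb, _, hw⟩ := hstep
      simp only
      rw [hw]
      simp_rw [dif_pos (show a < i ∧ b < i from ⟨ha, hb⟩), M_add, Finset.sum_add_distrib]
      exact add_le_add (ih a ha (by omega)) (ih b hb (by omega))
    | mul a b =>
      rw [hP] at hstep
      simp only [Step] at hstep
      obtain ⟨ha, hb, _, hw⟩ := hstep
      simp only
      rw [hw]
      simp_rw [dif_pos (show a < i ∧ b < i from ⟨ha, hb⟩), M_sum, M_mul]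
      exact (sum_antidiag_le L (fun d => M (G P a d)) (fun d => M (G P b d))).trans
        (mul_le_mul' (ih a ha (by omega)) (ih b hb (by omega)))

lemma fac_ineq (D x : ℕ) (hx : x ≤ D) (hD : D ≤ n) :
    ((n - x).factorial : ℝ≥0) * ((n - D + 1 : ℕ) : ℝ≥0) ^ x ≤ (n.factorial : ℝ≥0) := by
  have h1 : (n - x).factorial * (n - x + 1) ^ x ≤ n.factorial := by
    have := Nat.factorial_mul_pow_le_factorial (m := n - x) (n := x)
    rwa [Nat.sub_add_cancel (hx.trans hD)] at this
  have h2 : (n - x).factorial * (n - D + 1) ^ x ≤ n.factorial :=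
    le_trans (Nat.mul_le_mul_left _ (Nat.pow_le_pow_left (by omega) _)) h1
  exact_mod_cast h2

lemma conv (D x Λ : ℕ) (hx : x ≤ D) (hD : D ≤ n) (a b : ℝ≥0)
    (h : a * n.factorial ≤ (Λ : ℝ≥0) * ((n - x).factorial * b)) :
    a * ((n - D + 1 : ℕ) : ℝ≥0) ^ x ≤ Λ * b := by
  have hpos : (0 : ℝ≥0) < ((n - x).factorial : ℝ≥0) := by exact_mod_cast Nat.factorial_pos _
  have h1 : ((n - x).factorial : ℝ≥0) * (a * ((n - D + 1 : ℕ) : ℝ≥0) ^ x) ≤
      ((n - x).factorial : ℝ≥0) * (Λ * b) := by
    calc ((n - x).factorial : ℝ≥0) * (a * ((n - D + 1 : ℕ) : ℝ≥0) ^ x)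
        = a * (((n - x).factorial : ℝ≥0) * ((n - D + 1 : ℕ) : ℝ≥0) ^ x) := by ring
      _ ≤ a * n.factorial := by
          gcongr
          exact fac_ineq D x hx hD
      _ ≤ _ := h
      _ = _ := by ring
  exact le_of_mul_le_mul_left h1 hpos

/-- the bound for abstract programs -/
theorem main_bound (P : ℕ → Instr n) (g : ℕ → MvPolynomial (Fin n × Fin n) K) (w : ℕ → ℝ≥0)
    (m D : ℕ) (hD : 0 < D) (hDn : D < n) (h : ∀ i < m + 1, Step g w i (P i))
    (hper : ∀ σ : Equiv.Perm (Fin n), 1 ≤ ‖coeff (mono σ univ) (g m)‖₊) :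
    (((n - D + 1 : ℕ) : ℝ≥0)) ^ n ≤ (2 * ((m : ℝ≥0) + 1) ^ 2 * ((n : ℝ≥0) + 1) ^ 2) ^ (4 * (n / D) - 1)
      * w m := by
  classical
  set s := m + 1 with hs
  set Λ : ℕ := 2 * s ^ 2 * (n + 1) ^ 2 with hΛ
  set ι := (Fin s × Fin (n + 1)) ⊕ (Fin s × Fin s × Fin (n + 1) × Fin (n + 1)) with hι
  have hcard : Fintype.card ι ≤ Λ := by
    simp only [hι, Fintype.card_sum, Fintype.card_prod, Fintype.card_fin, hΛ]
    have h1 : s * (n + 1) ≤ s ^ 2 * (n + 1) ^ 2 := by
      apply Nat.mul_le_mul
      · exact Nat.le_self_pow (by norm_num) _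
      · exact Nat.le_self_pow (by norm_num) _
    have h2 : s * (s * ((n + 1) * (n + 1))) = s ^ 2 * (n + 1) ^ 2 := by ring
    rw [h2]
    calc s * (n + 1) + s ^ 2 * (n + 1) ^ 2 ≤ s ^ 2 * (n + 1) ^ 2 + s ^ 2 * (n + 1) ^ 2 := by omega
      _ = 2 * s ^ 2 * (n + 1) ^ 2 := by ring
  have hΛ1 : 1 ≤ Λ := by
    rw [hΛ]
    have : 0 < 2 * s ^ 2 * (n + 1) ^ 2 := by positivity
    omega
  obtain ⟨σ, hσ⟩ := exists_good (ι := ι)
    (fun j => match j with
      | .inl (i, d) => G P i d
      | .inr (i, k, d, e) => ctx P D k e (e + D - d) i d D)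
    (fun j => match j with
      | .inl (_, d) => (d : ℕ)
      | .inr (_, _, d, e) => D - (e + D - d))
    (by
      rintro (⟨i, d⟩ | ⟨i, k, d, e⟩)
      · exact G_homog P i d
      · exact (ctx_homog P D k e _ i d D).1) Λ hcard
  have hmain := main_ineq P D s Λ hD hΛ1 ((n - D + 1 : ℕ) : ℝ≥0) σ
    (by
      intro i hi d hd
      have := hσ (.inl (⟨i, hi⟩, ⟨d, by omega⟩))
      exact conv D d Λ hd hDn.le _ _ this)
    (by
      intro i hi k hk d hd e he ρ hρ hdeg
      have := hσ (.inr (⟨i, hi⟩, ⟨k, hk⟩, ⟨d, by omega⟩, ⟨e, by omega⟩))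
      simp only at this
      have hρ' : e + D - d = ρ := by omega
      rw [hρ'] at this
      exact conv D (D - ρ) Λ (by omega) hDn.le _ _ this)
    n le_rfl m (by omega)
  have hK : Kx D n = 4 * (n / D) - 1 := by
    unfold Kx; rw [if_neg (by omega)]
  rw [hK] at hmain
  have h1 : (1 : ℝ≥0) ≤ N σ (G P m n) := by
    calc (1 : ℝ≥0) ≤ ‖coeff (mono σ univ) (g m)‖₊ := hper σ
      _ ≤ coeff (mono σ univ) (G P m (mono σ univ).degree) :=
          coeff_le_G P g w s h m (by omega) _
      _ = coeff (mono σ univ) (G P m n) := by rw [degree_mono, Finset.card_univ, Fintype.card_fin]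
      _ ≤ N σ (G P m n) := by
          unfold N
          exact Finset.single_le_sum (f := fun S => coeff (mono σ S) (G P m n))
            (fun _ _ => zero_le) (Finset.mem_univ _)
  have h2 : M (G P m n) ≤ w m := by
    refine le_trans ?_ (sum_M_le P g w s h (n + 1) m (by omega))
    exact Finset.single_le_sum (f := fun d => M (G P m d)) (fun _ _ => zero_le)
      (Finset.mem_range.mpr (by omega))
  calc ((n - D + 1 : ℕ) : ℝ≥0) ^ n = 1 * ((n - D + 1 : ℕ) : ℝ≥0) ^ n := (one_mul _).symm
    _ ≤ N σ (G P m n) * ((n - D + 1 : ℕ) : ℝ≥0) ^ n := by gcongr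
    _ ≤ (Λ : ℝ≥0) ^ (4 * (n / D) - 1) * M (G P m n) := hmain
    _ ≤ (Λ : ℝ≥0) ^ (4 * (n / D) - 1) * w m := by gcongr
    _ = _ := by
        rw [hΛ, hs]
        push_cast
        ring

end Pool.Agent.H546R2
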