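import Pool.Agent.H546R2.Mass6

set_option autoImplicit false

open Finset

namespace Pool.Agent.H546R2

lemma asym (ε : ℝ) (h0 : 0 < ε) (h1 : ε < 1) : ∃ δ : ℝ, 0 < δ ∧ ∃ n₀ : ℕ, ∀ n ≥ n₀, ∀ (m : ℕ) (w : ℝ),
    (m : ℝ) + 1 ≤ (2 : ℝ) ^ (δ * (n : ℝ)) →
    (∀ D : ℕ, 0 < D → D < n → ((n - D + 1 : ℕ) : ℝ) ^ n ≤
      (2 * ((m : ℝ) + 1) ^ 2 * ((n : ℝ) + 1) ^ 2) ^ (4 * (n / D) - 1) * w) →
    ((1 - ε) * (n : ℝ)) ^ n ≤ w := by
  set β : ℝ := 1 + ε / 2 with hβ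
  have hβ1 : 1 < β := by rw [hβ]; linarith
  set γ : ℝ := Real.sqrt β with hγ
  have hγ1 : 1 < γ := by
    rw [hγ, Real.lt_sqrt (by norm_num)]
    simpa using hβ1
  have hγ2 : γ * γ = β := Real.mul_self_sqrt (by linarith)
  obtain ⟨k, hk⟩ := exists_nat_gt (8 / ε)
  have hk0 : (0 : ℝ) < k := lt_trans (by positivity) hk
  have hkpos : 0 < k := by exact_mod_cast hk0
  set δ : ℝ := Real.logb 2 γ / (2 * k) with hδ
  have hlog : 0 < Real.logb 2 γ := Real.logb_pos (by norm_num) hγ1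
  have hδ0 : 0 < δ := by rw [hδ]; positivity
  refine ⟨δ, hδ0, ?_⟩
  -- eventually the polynomial factor is small
  have hlim := tendsto_pow_const_div_const_pow_of_one_lt (2 * k) hγ1
  have hev := hlim.eventually (gt_mem_nhds (show (0 : ℝ) < 1 / (2 ^ k * γ) by positivity))
  rw [Filter.eventually_atTop] at hev
  obtain ⟨n₁, hn₁⟩ := hev
  refine ⟨max n₁ 2, ?_⟩
  intro n hn m w hm hD
  have hn1 : n₁ ≤ n := le_trans (le_max_left _ _) hn
  have hn2 : 2 ≤ n := le_trans (le_max_right _ _) hn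
  have hnR : (2 : ℝ) ≤ n := by exact_mod_cast hn2
  have hγpos : 0 < γ := by linarith
  have hpoly : 2 ^ k * ((n : ℝ) + 1) ^ (2 * k) ≤ γ ^ n := by
    have := hn₁ (n + 1) (by omega)
    rw [div_lt_div_iff₀ (by positivity) (by positivity)] at this
    push_cast at this
    rw [pow_succ] at this
    have h3 : (2 ^ k * ((n : ℝ) + 1) ^ (2 * k)) * γ ≤ γ ^ n * γ := by nlinarith [this.le]
    exact le_of_mul_le_mul_right h3 hγpos
  -- the choice of D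
  set D : ℕ := ⌊ε * n / 2⌋₊ + 1 with hDdef
  have hen : 0 ≤ ε * n / 2 := by positivity
  have hD1 : (D : ℝ) ≤ ε * n / 2 + 1 := by
    rw [hDdef]; push_cast
    linarith [Nat.floor_le hen]
  have hD2 : ε * n / 2 < (D : ℝ) := by
    rw [hDdef]; push_cast
    exact Nat.lt_floor_add_one _
  have hDn : D < n := by
    have : (D : ℝ) < n := by nlinarith
    exact_mod_cast this
  have hDpos : 0 < D := by rw [hDdef]; omega
  have hmain := hD D hDpos hDn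
  have hcast : ((n - D + 1 : ℕ) : ℝ) = n - D + 1 := by
    push_cast [Nat.cast_sub hDn.le]; ring
  have hbase : (1 - ε / 2) * n ≤ ((n - D + 1 : ℕ) : ℝ) := by rw [hcast]; nlinarith
  have hDR : (0 : ℝ) < D := by exact_mod_cast hDpos
  have hexp : 4 * (n / D) - 1 ≤ k := by
    have e1 : ((n / D : ℕ) : ℝ) ≤ (n : ℝ) / D := Nat.cast_div_le
    have e2 : (n : ℝ) / D ≤ 2 / ε := by
      rw [div_le_div_iff₀ hDR h0]
      nlinarith
    have e3 : (4 : ℝ) * ((n / D : ℕ) : ℝ) ≤ k := by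
      have : 8 / ε = 4 * (2 / ε) := by ring
      nlinarith
    have e4 : 4 * (n / D) ≤ k := by exact_mod_cast e3
    omega
  have hw : 0 ≤ w := by
    have hpos : (0 : ℝ) < ((n - D + 1 : ℕ) : ℝ) ^ n := by positivity
    have hpos2 : (0 : ℝ) < (2 * ((m : ℝ) + 1) ^ 2 * ((n : ℝ) + 1) ^ 2) ^ (4 * (n / D) - 1) := by
      positivity
    by_contra hneg
    push Not at hneg
    have := mul_neg_of_pos_of_neg hpos2 hneg
    linarith
  have hΛ1 : (1 : ℝ) ≤ 2 * ((m : ℝ) + 1) ^ 2 * ((n : ℝ) + 1) ^ 2 := by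
    have a1 : (1 : ℝ) ≤ ((m : ℝ) + 1) ^ 2 := one_le_pow₀ (by linarith [Nat.cast_nonneg (α := ℝ) m])
    have a2 : (1 : ℝ) ≤ ((n : ℝ) + 1) ^ 2 := one_le_pow₀ (by linarith)
    nlinarith
  have hm2 : ((m : ℝ) + 1) ^ (2 * k) ≤ γ ^ n := by
    calc ((m : ℝ) + 1) ^ (2 * k) ≤ ((2 : ℝ) ^ (δ * (n : ℝ))) ^ (2 * k) := by gcongr
      _ = (2 : ℝ) ^ (δ * (n : ℝ) * ((2 * k : ℕ) : ℝ)) := by
          rw [← Real.rpow_mul_natCast (by norm_num)]
      _ = (2 : ℝ) ^ (Real.logb 2 γ * n) := by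
          congr 1
          rw [hδ]; push_cast; field_simp
      _ = γ ^ n := by
          rw [Real.rpow_mul (by norm_num), Real.rpow_logb (by norm_num) (by norm_num) hγpos,
            Real.rpow_natCast]
  have hΛ2 : (2 * ((m : ℝ) + 1) ^ 2 * ((n : ℝ) + 1) ^ 2) ^ k ≤ β ^ n := by
    calc (2 * ((m : ℝ) + 1) ^ 2 * ((n : ℝ) + 1) ^ 2) ^ k
        = (2 ^ k * ((n : ℝ) + 1) ^ (2 * k)) * ((m : ℝ) + 1) ^ (2 * k) := by
          rw [mul_pow, mul_pow, ← pow_mul, ← pow_mul]; ring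
      _ ≤ γ ^ n * γ ^ n := by gcongr
      _ = β ^ n := by rw [← mul_pow, hγ2]
  have hfin : ((1 - ε / 2) * n) ^ n ≤ β ^ n * w := by
    calc ((1 - ε / 2) * (n : ℝ)) ^ n ≤ ((n - D + 1 : ℕ) : ℝ) ^ n := by
          apply pow_le_pow_left₀ _ hbase
          apply mul_nonneg <;> linarith
      _ ≤ _ := hmain
      _ ≤ (2 * ((m : ℝ) + 1) ^ 2 * ((n : ℝ) + 1) ^ 2) ^ k * w := by
          gcongr
      _ ≤ β ^ n * w := by gcongr
  have hstep : β ^ n * ((1 - ε) * n) ^ n ≤ ((1 - ε / 2) * n) ^ n := by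
    rw [← mul_pow]
    apply pow_le_pow_left₀
    · apply mul_nonneg (by linarith)
      apply mul_nonneg <;> linarith
    · rw [hβ]
      nlinarith [mul_nonneg (mul_nonneg h0.le h0.le) (by linarith : (0 : ℝ) ≤ n)]
  have hβn : 0 < β ^ n := by positivity
  exact le_of_mul_le_mul_left (hstep.trans hfin) hβn

end Pool.Agent.H546R2
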